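import Pool.Agent.H24.CL.Targets

/-!
# clv_modules GC: a good chain has few points in every orbit
-/

set_option autoImplicit false

open Finset MeasureTheory

namespace Pool.Agent.H16.CLV

open Pool.Agent.H24.CL

theorem pf_GC (hO0 : T_O0) (hOS : T_OS) (hOC : T_OC) (hLA : T_LA) (hPH : T_PH) (hTO : T_TO) :
    T_GC := by
  intro c₁ ε T m hc hc1 hε hεc hT hm
  refine ⟨max 16 ⌈(384 : ℝ) ^ (1 / (3 * c₁))⌉₊, ?_⟩
  intro q L t₀ W A n hq hprime hL ht₀ hchain hgr Y hYW hYH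
  have hq16 : 16 ≤ q := le_trans (le_max_left _ _) hq
  have hqR16 : (16 : ℝ) ≤ q := by exact_mod_cast hq16
  have hq1 : (1 : ℝ) ≤ q := by linarith
  have hq0 : (0 : ℝ) < q := by linarith
  have : Fact q.Prime := ⟨hprime⟩
  have hbig : (384 : ℝ) ≤ (q : ℝ) ^ (3 * c₁) := by
    have h1 : (384 : ℝ) ^ (1 / (3 * c₁)) ≤ q :=
      le_trans (Nat.le_ceil _) (by exact_mod_cast le_trans (le_max_right _ _) hq)
    have h2 : ((384 : ℝ) ^ (1 / (3 * c₁))) ^ (3 * c₁) ≤ (q : ℝ) ^ (3 * c₁) :=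
      Real.rpow_le_rpow (by positivity) h1 (by positivity)
    rwa [← Real.rpow_mul (by norm_num), one_div_mul_cancel (by positivity), Real.rpow_one] at h2
  rcases Y.eq_empty_or_nonempty with rfl | ⟨a, ha⟩
  · rw [Finset.card_empty, Nat.cast_zero]
    positivity
  set ρ : ℝ := (q : ℝ) ^ ε with hρ
  have hρ1 : 1 ≤ ρ := Real.one_le_rpow hq1 hε.le
  have hρ0 : 0 < ρ := by linarith
  have hLAj := hLA 3 q m L T ρ t₀ W A n (by norm_num) (by omega) hL hT hρ1 ht₀ hchain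
  have hPHj := hPH 3 q m L T ρ t₀ W A n (by norm_num) hprime (by omega) hL hT hρ1 ht₀ hchain
  have hne : ∀ j < m, (W j).Nonempty → (W (j + 1)).Nonempty := by
    rintro j hj ⟨w, hw⟩
    have h1 := hchain.card_lo j hj w hw
    have h2 := hchain.one_le j hj
    have h3 : (1 : ℝ) ≤ ((pos q (W (j + 1)) w).card : ℝ) := le_trans h2 h1
    have h4 : 0 < (pos q (W (j + 1)) w).card := by
      have : (0 : ℝ) < ((pos q (W (j + 1)) w).card : ℝ) := by linarith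
      exact_mod_cast this
    obtain ⟨b, hb⟩ := Finset.card_pos.1 h4
    simp only [pos, Finset.mem_filter] at hb
    exact ⟨_, hb.2⟩
  have hW0 : (W 0).Nonempty := ⟨a, hYW a ha⟩
  have hW1 := hne 0 (by omega) hW0
  have hW2 := hne 1 (by omega) hW1
  obtain ⟨-, hcar0, h0⟩ := hLAj 0 (by omega)
  obtain ⟨hln1, hcar1, h1⟩ := hLAj 1 (by omega)
  obtain ⟨hln2, -, h2⟩ := hLAj 2 (by omega)
  obtain ⟨hG0, hq0G⟩ := h0 hW0
  obtain ⟨hG1, hq1G⟩ := h1 hW1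
  obtain ⟨hG2, -⟩ := h2 hW2
  have hP0 := hPHj 0 (by omega)
  have hP1 := hPHj 1 (by omega)
  have hfac : (Nat.factorial 3 : ℝ) = 6 := by norm_num [Nat.factorial]
  rw [hfac] at hP0 hP1
  have hn0 := hchain.one_le 0 (by omega)
  have hn0q := hchain.n_le 0 (by omega)
  have hn1 := hchain.one_le 1 (by omega)
  have hn1q := hchain.n_le 1 (by omega)
  set G₀ := Gr q T ρ A n 0 with hG₀
  set G₁ := Gr q T ρ A n 1 with hG₁
  set G₂ := Gr q T ρ A n 2 with hG₂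
  have hg0 : G₀ ≤ (q : ℝ) ^ c₁ := hgr 0 (by norm_num)
  have hg1 : G₁ ≤ (q : ℝ) ^ c₁ := hgr 1 (by norm_num)
  have hg2 : G₂ ≤ (q : ℝ) ^ c₁ := hgr 2 (by norm_num)
  have horb := hOS q (by omega) W G₀ G₁ G₂ (n 0) (n 1) hG0 hG1 hG2 hn0 hn0q hn1 hn1q hP0 hP1
    hln1 hln2 hcar0 hcar1 a
  have hqc : 0 < (q : ℝ) ^ c₁ := by positivity
  -- the quotients
  have hn00 : 0 < n 0 := by linarith
  have hn10 : 0 < n 1 := by linarith
  have hr0 : (q : ℝ) / n 0 ≤ (q : ℝ) ^ (ε + c₁) := by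
    rw [div_le_iff₀ hn00, Real.rpow_add hq0]
    calc (q : ℝ) ≤ ρ * n 0 * G₀ := hq0G
      _ ≤ ρ * n 0 * (q : ℝ) ^ c₁ := by gcongr
      _ = ρ * (q : ℝ) ^ c₁ * n 0 := by ring
  have hr1 : (q : ℝ) / n 1 ≤ (q : ℝ) ^ (ε + c₁) := by
    rw [div_le_iff₀ hn10, Real.rpow_add hq0]
    calc (q : ℝ) ≤ ρ * n 1 * G₁ := hq1G
      _ ≤ ρ * n 1 * (q : ℝ) ^ c₁ := by gcongr
      _ = ρ * (q : ℝ) ^ c₁ * n 1 := by ring
  have hn4 : 4 ≤ n 0 := by
    have h5 : (q : ℝ) / n 0 ≤ (q : ℝ) ^ (1 / 2 : ℝ) :=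
      le_trans hr0 (Real.rpow_le_rpow_of_exponent_le hq1 (by linarith))
    rw [div_le_iff₀ hn00, ← Real.sqrt_eq_rpow] at h5
    have h6 : (4 : ℝ) ≤ Real.sqrt q := Real.le_sqrt_of_sq_le (by linarith)
    have h7 : Real.sqrt q * Real.sqrt q = q := Real.mul_self_sqrt hq0.le
    have h8 : 0 < Real.sqrt q := by linarith
    have h9 : Real.sqrt q * Real.sqrt q ≤ Real.sqrt q * n 0 := by rw [h7]; exact h5
    have h10 : Real.sqrt q ≤ n 0 := le_of_mul_le_mul_left h9 h8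
    linarith
  have hO := hO0 q (by omega) _ _ _ _ _ _ _ _ horb hn4
  -- the number of points of `Y`
  have hcard : (Y.card : ℝ) ≤ ((A0s q (W 0) a).card : ℝ) := by
    have h5 : (Y.image fun y => y - a).card = Y.card :=
      Finset.card_image_of_injective _ fun x y hxy => sub_left_injective hxy
    have h6 := (hOC q (by omega)).2.1 (W 0) a (Y.image fun y => y - a) (by
      intro y hy
      obtain ⟨z, hz, rfl⟩ := Finset.mem_image.1 hy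
      refine ⟨((hTO 3 q (by omega)).2.1 3 (z - a)).2 (hYH z hz a ha), ?_⟩
      rw [add_sub_cancel]
      exact hYW z hz)
    rw [h5] at h6
    exact_mod_cast h6
  refine le_trans hcard (le_trans hO ?_)
  have e1 : (q : ℝ) * G₁ / n 0 ≤ (q : ℝ) ^ (ε + 2 * c₁) := by
    have h5 : (q : ℝ) * G₁ / n 0 = (q : ℝ) / n 0 * G₁ := by ring
    have h6 : (q : ℝ) ^ (ε + 2 * c₁) = (q : ℝ) ^ (ε + c₁) * (q : ℝ) ^ c₁ := by
      rw [← Real.rpow_add hq0]; ring_nf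
    rw [h5, h6]
    gcongr
  have e2 : (q : ℝ) * ((q : ℝ) * G₂ / n 1) / n 0 ≤ (q : ℝ) ^ (2 * ε + 3 * c₁) := by
    have h5 : (q : ℝ) * ((q : ℝ) * G₂ / n 1) / n 0 = (q : ℝ) / n 0 * ((q : ℝ) / n 1) * G₂ := by
      ring
    have h6 : (q : ℝ) ^ (2 * ε + 3 * c₁) =
        (q : ℝ) ^ (ε + c₁) * (q : ℝ) ^ (ε + c₁) * (q : ℝ) ^ c₁ := by
      rw [← Real.rpow_add hq0, ← Real.rpow_add hq0]; ring_nf
    rw [h5, h6]
    gcongr
  have hG0' : 0 ≤ G₀ := by linarith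
  have hG1' : 0 ≤ G₁ := by linarith
  have hG2' : 0 ≤ G₂ := by linarith
  calc 64 * (6 * G₀ ^ 3) * ((q : ℝ) * G₁ / n 0) ^ 3 *
        ((q : ℝ) * ((q : ℝ) * G₂ / n 1) / n 0) ^ 3
      ≤ 64 * (6 * ((q : ℝ) ^ c₁) ^ 3) * ((q : ℝ) ^ (ε + 2 * c₁)) ^ 3 *
        ((q : ℝ) ^ (2 * ε + 3 * c₁)) ^ 3 := by gcongr
    _ = 384 * (q : ℝ) ^ (18 * c₁ + 9 * ε) := by
        rw [← Real.rpow_natCast ((q : ℝ) ^ c₁), ← Real.rpow_natCast ((q : ℝ) ^ (ε + 2 * c₁)),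
          ← Real.rpow_natCast ((q : ℝ) ^ (2 * ε + 3 * c₁)), ← Real.rpow_mul hq0.le,
          ← Real.rpow_mul hq0.le, ← Real.rpow_mul hq0.le]
        have h5 : 18 * c₁ + 9 * ε = c₁ * ((3 : ℕ) : ℝ) + (ε + 2 * c₁) * ((3 : ℕ) : ℝ) +
            (2 * ε + 3 * c₁) * ((3 : ℕ) : ℝ) := by
          push_cast
          ring
        rw [h5, Real.rpow_add hq0, Real.rpow_add hq0]
        ring
    _ ≤ (q : ℝ) ^ (3 * c₁) * (q : ℝ) ^ (27 * c₁) := by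
        have h5 : (q : ℝ) ^ (18 * c₁ + 9 * ε) ≤ (q : ℝ) ^ (27 * c₁) :=
          Real.rpow_le_rpow_of_exponent_le hq1 (by linarith)
        gcongr
    _ = (q : ℝ) ^ (30 * c₁) := by
        rw [← Real.rpow_add hq0]
        ring_nf

end Pool.Agent.H16.CLV
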